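import Pool.Agent.Helper44.QuadLine
import Pool.Agent.Helper44.QuadEmb
import Pool.Agent.Helper44.NonIso
import Pool.Agent.Helper44.ProjSpace

/-!
The smooth quadric threefold `x₀x₁ + x₂x₃ + x₄² = 0` in characteristic two carries a nonzero
morphism from the very ample line bundle `O(1)` to its tangent bundle, and it is not isomorphic
to projective space.
-/

open AlgebraicGeometry CategoryTheory

universe u

namespace Pool.Agent.Results.MP_63fcef_ag.QuadricCharTwo

open Pool.Agent.Helper44

theorem result (k : Type u) [Field k] [CharP k 2] :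
    ∃ (X : Scheme.{u}) (s : X ⟶ Spec (.of k)),
      IsIntegral X ∧ SmoothOfRelativeDimension 3 s ∧
      (∃ i : X ⟶ projSpace 4 k, IsClosedImmersion i ∧ i ≫ projSpaceStr 4 k = s) ∧
      (¬ ∃ e : X ≅ projSpace 3 k, e.hom ≫ projSpaceStr 3 k = s) ∧
      ∃ (L : X.Modules) (φ : L ⟶ tangentSheaf s),
        IsInvertible L ∧ IsVeryAmple s L ∧ φ ≠ 0 := by
  refine ⟨Proj (quadGrading k), projStr (quadGrading k), quad_isIntegral k, quad_smooth k,
    ⟨quadEmb k, quadEmb_closed k, quadEmb_projStr k⟩, ?_, lineL k, lineIncl k, ?_,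
    lineL_veryAmple k, lineIncl_ne_zero k⟩
  · rintro ⟨e, he⟩
    refine not_iso k e ?_
    rw [← he]
    exact e.inv_hom_id_assoc _
  · intro x
    obtain ⟨j, hj⟩ := not_mem_all k x
    exact ⟨Proj.basicOpen (quadGrading k) (xq k j.castSucc), hj, _,
      vL_generates k j.castSucc j.castSucc (castSucc_ne_four j) le_rfl le_rfl⟩

end Pool.Agent.Results.MP_63fcef_ag.QuadricCharTwo
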